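import Mathlib
set_option autoImplicit false

/-! # The inverse Fourier transform on `L¹ ∩ L²` -/

namespace Pool.Agent.V1178.FW

open Complex MeasureTheory Filter Topology FourierTransform SchwartzMap Set
open scoped ContDiff ENNReal

theorem fourierInv_ae_eq (f : ℝ → ℂ) (h1 : Integrable f) (h2 : MemLp f 2) :
    ((𝓕⁻ (h2.toLp f) : Lp ℂ 2 (volume : Measure ℝ)) : ℝ → ℂ) =ᵐ[volume] 𝓕⁻ f := by
  have hcont : Continuous (𝓕⁻ f) := by
    have h3 : Continuous (𝓕 f) :=
      VectorFourier.fourierIntegral_continuous (L := innerₗ ℝ) Real.continuous_fourierChar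
        continuous_inner h1
    have : 𝓕⁻ f = fun x => 𝓕 f (-x) := by
      funext x; exact Real.fourierInv_eq_fourier_neg f x
    rw [this]
    exact h3.comp continuous_neg
  apply ae_eq_of_integral_contDiff_smul_eq
  · exact (Lp.memLp _).locallyIntegrable (by norm_num)
  · exact hcont.locallyIntegrable
  · intro g g_smooth g_cpt
    have hg₁ : HasCompactSupport (Complex.ofRealCLM ∘ g) := g_cpt.comp_left rfl
    have hg₂ : ContDiff ℝ ∞ (Complex.ofRealCLM ∘ g) := by fun_prop
    set gS : 𝓢(ℝ, ℂ) := hg₁.toSchwartzMap hg₂ with hgS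
    have hgx : ∀ x, gS x = (g x : ℂ) := fun x => rfl
    have e1 : ∫ x, g x • ((𝓕⁻ (h2.toLp f) : Lp ℂ 2 (volume : Measure ℝ)) : ℝ → ℂ) x =
        ((𝓕⁻ (h2.toLp f) : Lp ℂ 2 (volume : Measure ℝ)) : 𝓢'(ℝ, ℂ)) gS := by
      rw [Lp.toTemperedDistribution_apply]
      simp [hgx]
    rw [e1, ← Lp.fourierInv_toTemperedDistribution_eq, TemperedDistribution.fourierInv_apply,
      Lp.toTemperedDistribution_apply]
    have e2 : ∫ x, (𝓕⁻ gS) x • (h2.toLp f : ℝ → ℂ) x = ∫ x, (𝓕⁻ gS) x • f x := by
      apply integral_congr_ae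
      filter_upwards [h2.coeFn_toLp] with x hx
      rw [hx]
    rw [e2]
    have hneg : Integrable fun x => f (-x) := h1.comp_neg
    have e3 := VectorFourier.integral_fourierIntegral_smul_eq_flip (L := innerₗ ℝ)
      Real.continuous_fourierChar continuous_inner gS.integrable hneg (μ := volume) (ν := volume)
    simp only [flip_innerₗ] at e3
    have e4 : ∫ x, (𝓕⁻ gS) x • f x = ∫ x, (𝓕 (fun y => gS y)) x • f (-x) := by
      rw [← integral_neg_eq_self]
      refine integral_congr_ae (Eventually.of_forall fun x => ?_)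
      simp only
      rw [SchwartzMap.fourierInv_coe, Real.fourierInv_eq_fourier_neg, neg_neg]
    have e5 : ∫ x, (𝓕 (fun y => gS y)) x • f (-x) = ∫ x, gS x • (𝓕 (fun y => f (-y))) x := e3
    rw [e4, e5]
    refine integral_congr_ae (Eventually.of_forall fun x => ?_)
    simp only [hgx]
    have e6 : (𝓕 (fun y => f (-y))) x = 𝓕⁻ f x := by
      rw [Real.fourierInv_eq_fourier_neg]
      rw [Real.fourier_eq', Real.fourier_eq']
      rw [← integral_neg_eq_self]
      refine integral_congr_ae (Eventually.of_forall fun y => ?_)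
      simp
    rw [e6]
    simp

end Pool.Agent.V1178.FW
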