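import Mathlib
import Pool.Agent.V1178.FW.Inv
set_option autoImplicit false

/-! # Wavelet coefficients -/

namespace Pool.Agent.V1178.FW

open Complex MeasureTheory Filter Topology FourierTransform Set
open scoped ENNReal InnerProductSpace

/-- the Hilbert space -/
abbrev L2 : Type := Lp ℂ 2 (volume : Measure ℝ)

/-- the set `(-1,-b) ∪ (b,1)` -/
def EE (b : ℝ) : Set ℝ := {ξ | b < |ξ| ∧ |ξ| < 1}

theorem EE_meas (b : ℝ) : MeasurableSet (EE b) :=
  (measurableSet_lt measurable_const measurable_norm).inter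
    (measurableSet_lt measurable_norm measurable_const)

theorem EE_fin (b : ℝ) : volume (EE b) ≠ ∞ := by
  have h : EE b ⊆ Icc (-1) 1 := fun x hx => abs_le.mp hx.2.le
  exact ((measure_mono h).trans_lt (by rw [Real.volume_Icc]; exact ENNReal.ofReal_lt_top)).ne

/-- `(2^j, k)` atoms on the Fourier side -/
noncomputable def hc (b : ℝ) (j k : ℤ) (ξ : ℝ) : ℂ :=
  ((2 : ℝ) ^ (-(j : ℝ) / 2) : ℝ) * cexp (((-2 * Real.pi * (k * ξ / 2 ^ j) : ℝ) : ℂ) * I) *
    (EE b).indicator (fun _ => (1 : ℂ)) (ξ / 2 ^ j)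

theorem hc_meas (b : ℝ) (j k : ℤ) : Measurable (hc b j k) := by
  unfold hc
  refine Measurable.mul ?_ ((measurable_const.indicator (EE_meas b)).comp (measurable_id.div_const _))
  fun_prop

theorem hc_bound (b : ℝ) (j k : ℤ) (ξ : ℝ) :
    ‖hc b j k ξ‖ ≤ (Icc (-(2 : ℝ) ^ j) (2 ^ j)).indicator (fun _ => (2 : ℝ) ^ (-(j : ℝ) / 2)) ξ := by
  have h2j : (0 : ℝ) < 2 ^ j := by positivity
  have hp : (0 : ℝ) < (2 : ℝ) ^ (-(j : ℝ) / 2) := by positivity
  unfold hc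
  rw [norm_mul, norm_mul, Complex.norm_exp_ofReal_mul_I, mul_one, Complex.norm_real,
    Real.norm_of_nonneg hp.le]
  by_cases h : ξ / 2 ^ j ∈ EE b
  · rw [indicator_of_mem h, norm_one, mul_one]
    have h2 : ξ ∈ Icc (-(2 : ℝ) ^ j) (2 ^ j) := by
      have h3 := h.2
      rw [abs_div, abs_of_pos h2j, div_lt_one h2j] at h3
      exact abs_le.mp h3.le
    rw [indicator_of_mem h2]
  · rw [indicator_of_notMem h, norm_zero, mul_zero]
    exact indicator_nonneg (fun _ _ => hp.le) _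

theorem hc_int (b : ℝ) (j k : ℤ) : Integrable (hc b j k) := by
  refine Integrable.mono' ?_ (hc_meas b j k).aestronglyMeasurable
    (Eventually.of_forall (hc_bound b j k))
  exact (integrable_indicator_iff measurableSet_Icc).mpr (integrableOn_const (by simp) (by simp))

theorem hc_L2 (b : ℝ) (j k : ℤ) : MemLp (hc b j k) 2 := by
  refine MemLp.mono' ?_ (hc_meas b j k).aestronglyMeasurable
    (Eventually.of_forall (hc_bound b j k))
  exact memLp_indicator_const 2 measurableSet_Icc _ (Or.inr (by simp))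

theorem hc_zero (b : ℝ) : hc b 0 0 = (EE b).indicator fun _ => (1 : ℂ) := by
  funext ξ
  unfold hc
  simp

/-- dilates and translates -/
noncomputable def dil (ψ : ℝ → ℂ) (j k : ℤ) (x : ℝ) : ℂ :=
  ((2 : ℝ) ^ ((j : ℝ) / 2) : ℝ) * ψ (2 ^ j * x - k)

theorem half_pow (j : ℤ) : (2 : ℝ) ^ (-(j : ℝ) / 2) = (2 : ℝ) ^ ((j : ℝ) / 2) * ((2 : ℝ) ^ j)⁻¹ := by
  rw [← Real.rpow_intCast, ← Real.rpow_neg (by norm_num), ← Real.rpow_add (by norm_num)]
  congr 1; ring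

theorem inv_hc (b : ℝ) (j k : ℤ) (x : ℝ) : 𝓕⁻ (hc b j k) x = dil (𝓕⁻ (hc b 0 0)) j k x := by
  have h2j : (0 : ℝ) < (2 : ℝ) ^ j := by positivity
  unfold dil
  rw [Real.fourierInv_eq', Real.fourierInv_eq', hc_zero]
  have h1 := Measure.integral_comp_div (fun ξ : ℝ => cexp (((2 * Real.pi * ⟪ξ, 2 ^ j * x - k⟫_ℝ : ℝ) : ℂ) * I) •
    (EE b).indicator (fun _ => (1 : ℂ)) ξ) ((2 : ℝ) ^ j)
  rw [abs_of_pos h2j] at h1
  have h2 : ∫ ξ : ℝ, cexp (((2 * Real.pi * ⟪ξ, 2 ^ j * x - k⟫_ℝ : ℝ) : ℂ) * I) •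
      (EE b).indicator (fun _ => (1 : ℂ)) ξ = ((2 : ℝ) ^ j)⁻¹ • ∫ ξ : ℝ,
      cexp (((2 * Real.pi * ⟪ξ / 2 ^ j, 2 ^ j * x - k⟫_ℝ : ℝ) : ℂ) * I) •
      (EE b).indicator (fun _ => (1 : ℂ)) (ξ / 2 ^ j) := by
    rw [h1, smul_smul, inv_mul_cancel₀ h2j.ne', one_smul]
  rw [h2, Complex.real_smul, ← mul_assoc, ← Complex.ofReal_mul, ← half_pow, ← integral_const_mul]
  refine integral_congr_ae (Eventually.of_forall fun ξ => ?_)
  simp only [smul_eq_mul, hc, RCLike.inner_apply, conj_trivial]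
  have e : cexp (((2 * Real.pi * ((2 ^ j * x - k) * (ξ / 2 ^ j)) : ℝ) : ℂ) * I) =
      cexp (((2 * Real.pi * (x * ξ) : ℝ) : ℂ) * I) *
        cexp (((-2 * Real.pi * (k * ξ / 2 ^ j) : ℝ) : ℂ) * I) := by
    rw [← Complex.exp_add]
    congr 1
    have : (2 * Real.pi * ((2 ^ j * x - k) * (ξ / 2 ^ j)) : ℝ) =
        2 * Real.pi * (x * ξ) + -2 * Real.pi * (k * ξ / 2 ^ j) := by
      field_simp
      ring
    rw [this]; push_cast; ring
  rw [e]
  ring

theorem dil_congr {ψ φ : ℝ → ℂ} (h : ψ =ᵐ[volume] φ) (j k : ℤ) : dil ψ j k =ᵐ[volume] dil φ j k := by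
  have h2j : (2 : ℝ) ^ j ≠ 0 := by positivity
  have hq : Measure.QuasiMeasurePreserving (fun x : ℝ => 2 ^ j * x - k) volume volume := by
    have e : (fun x : ℝ => (2 : ℝ) ^ j * x - k) = (fun x => x - (k : ℝ)) ∘ fun x => 2 ^ j * x := rfl
    rw [e]
    refine (measurePreserving_sub_right volume (k : ℝ)).quasiMeasurePreserving.comp ?_
    refine ⟨measurable_const_mul _, ?_⟩
    rw [Real.map_volume_mul_left h2j]
    exact Measure.smul_absolutelyContinuous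
  filter_upwards [hq.ae_eq_comp h] with x hx
  unfold dil
  simp only [Function.comp] at hx
  rw [hx]

/-- the element of `L²` with Fourier transform `1_E` -/
theorem psi_ae (b : ℝ) (ψ : L2) (hψ : ((𝓕 ψ : L2) : ℝ → ℂ) =ᵐ[volume] (EE b).indicator fun _ => (1 : ℂ)) :
    (ψ : ℝ → ℂ) =ᵐ[volume] 𝓕⁻ (hc b 0 0) := by
  have h1 : (𝓕 ψ : L2) = (hc_L2 b 0 0).toLp (hc b 0 0) := by
    apply Lp.ext
    refine hψ.trans ?_
    rw [← hc_zero]
    exact (hc_L2 b 0 0).coeFn_toLp.symm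
  have h2 : ψ = (𝓕⁻ ((hc_L2 b 0 0).toLp (hc b 0 0)) : L2) := by
    rw [← h1, FourierTransform.fourierInv_fourier_eq]
  have h3 := fourierInv_ae_eq (hc b 0 0) (hc_int b 0 0) (hc_L2 b 0 0)
  rw [← h2] at h3
  exact h3

/-- the coefficients in terms of the Fourier transform -/
theorem coef_eq (b : ℝ) (ψ : L2)
    (hψ : ((𝓕 ψ : L2) : ℝ → ℂ) =ᵐ[volume] (EE b).indicator fun _ => (1 : ℂ)) (f : L2) (j k : ℤ) :
    ∫ x, f x * (starRingEnd ℂ) (dil ψ j k x) =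
      ∫ ξ, (𝓕 f : L2) ξ * (starRingEnd ℂ) (hc b j k ξ) := by
  have h1 : dil ψ j k =ᵐ[volume] 𝓕⁻ (hc b j k) := by
    refine (dil_congr (psi_ae b ψ hψ) j k).trans (Eventually.of_forall fun x => ?_)
    exact (inv_hc b j k x).symm
  set H : L2 := (hc_L2 b j k).toLp (hc b j k) with hH
  have h2 : ((𝓕⁻ H : L2) : ℝ → ℂ) =ᵐ[volume] dil ψ j k :=
    (fourierInv_ae_eq (hc b j k) (hc_int b j k) (hc_L2 b j k)).trans h1.symm
  have h3 : ⟪(𝓕⁻ H : L2), f⟫_ℂ = ⟪H, (𝓕 f : L2)⟫_ℂ := by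
    rw [← Lp.inner_fourier_eq (𝓕⁻ H : L2) f, FourierTransform.fourier_fourierInv_eq]
  rw [L2.inner_def, L2.inner_def] at h3
  have e1 : ∫ x, f x * (starRingEnd ℂ) (dil ψ j k x) = ∫ x, ⟪((𝓕⁻ H : L2) : ℝ → ℂ) x, f x⟫_ℂ := by
    refine integral_congr_ae ?_
    filter_upwards [h2] with x hx
    rw [hx]; rfl
  have e2 : ∫ x, (𝓕 f : L2) x * (starRingEnd ℂ) (hc b j k x) = ∫ x, ⟪(H : ℝ → ℂ) x, (𝓕 f : L2) x⟫_ℂ := by
    refine integral_congr_ae ?_
    filter_upwards [(hc_L2 b j k).coeFn_toLp] with x hx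
    rw [hH, hx]; rfl
  rw [e1, e2]
  exact h3

/-- folding to one period -/
noncomputable def uu (b : ℝ) (F : ℝ → ℂ) (j : ℤ) (ξ : ℝ) : ℂ :=
  (Ioi (b * 2 ^ j)).indicator F ξ + (Iio ((1 - b) * 2 ^ j)).indicator (fun ξ => F (ξ - 2 ^ j)) ξ

theorem uu_meas (b : ℝ) {F : ℝ → ℂ} (hF : Measurable F) (j : ℤ) : Measurable (uu b F j) :=
  (hF.indicator measurableSet_Ioi).add ((hF.comp (measurable_sub_const _)).indicator measurableSet_Iio)

theorem uu_L2 (b : ℝ) {F : ℝ → ℂ} (hF : MemLp F 2) (j : ℤ) : MemLp (uu b F j) 2 := by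
  have h1 : MemLp (fun ξ => F (ξ - 2 ^ j)) 2 :=
    hF.comp_measurePreserving (measurePreserving_sub_right volume _)
  exact (hF.indicator measurableSet_Ioi).add (h1.indicator measurableSet_Iio)

/-- integrals over one period -/
theorem fold (b : ℝ) (hb0 : 0 < b) (hb1 : b < 1) {F : ℝ → ℂ} (hF : MemLp F 2) (j k : ℤ) :
    ∫ ξ, F ξ * (starRingEnd ℂ) (hc b j k ξ) = ((2 : ℝ) ^ (-(j : ℝ) / 2) : ℝ) *
      ∫ ξ in Ioo 0 ((2 : ℝ) ^ j), cexp (((2 * Real.pi * (k * ξ / 2 ^ j) : ℝ) : ℂ) * I) * uu b F j ξ := by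
  have h2j : (0 : ℝ) < (2 : ℝ) ^ j := by positivity
  set L : ℝ := (2 : ℝ) ^ j with hL
  have hloc : ∀ a c : ℝ, IntegrableOn F (Ioo a c) := fun a c =>
    (hF.restrict (Ioo a c)).integrable one_le_two
  set G : ℝ → ℂ := fun ξ => cexp (((2 * Real.pi * (k * ξ / L) : ℝ) : ℂ) * I) * F ξ with hG
  have hGloc : ∀ a c : ℝ, IntegrableOn G (Ioo a c) := fun a c => by
    refine (hloc a c).bdd_mul (c := 1) ?_ ?_
    · exact (by fun_prop : Continuous fun ξ : ℝ => cexp (((2 * Real.pi * (k * ξ / L) : ℝ) : ℂ) * I)).aestronglyMeasurable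
    · exact Eventually.of_forall fun x => (Complex.norm_exp_ofReal_mul_I _).le
  have hper : ∀ ξ, cexp (((2 * Real.pi * (k * (ξ - L) / L) : ℝ) : ℂ) * I) =
      cexp (((2 * Real.pi * (k * ξ / L) : ℝ) : ℂ) * I) := by
    intro ξ
    have h1 : (2 * Real.pi * (k * (ξ - L) / L) : ℝ) = 2 * Real.pi * (k * ξ / L) - k * (2 * Real.pi) := by
      field_simp
    rw [h1, show (((2 * Real.pi * (k * ξ / L) - k * (2 * Real.pi) : ℝ) : ℂ) * I) =
      ((2 * Real.pi * (k * ξ / L) : ℝ) : ℂ) * I - k * (2 * Real.pi * I) by push_cast; ring]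
    exact Complex.exp_periodic.sub_int_mul_eq k
  have i1 : Integrable ((Ioo (b * L) L).indicator G) :=
    (integrable_indicator_iff measurableSet_Ioo).mpr (hGloc _ _)
  have i2 : Integrable ((Ioo (-L) (-(b * L))).indicator G) :=
    (integrable_indicator_iff measurableSet_Ioo).mpr (hGloc _ _)
  have i3 : Integrable ((Ioo 0 ((1 - b) * L)).indicator fun ξ => G (ξ - L)) := by
    have h := i2.comp_sub_right L
    refine h.congr (Eventually.of_forall fun ξ => ?_)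
    simp only [indicator_apply]
    have : ξ - L ∈ Ioo (-L) (-(b * L)) ↔ ξ ∈ Ioo 0 ((1 - b) * L) := by
      constructor
      · rintro ⟨h1, h2⟩; exact ⟨by linarith, by linarith⟩
      · rintro ⟨h1, h2⟩; exact ⟨by linarith, by linarith⟩
    simp only [this]
  have e1 : ∀ ξ, F ξ * (starRingEnd ℂ) (hc b j k ξ) = ((2 : ℝ) ^ (-(j : ℝ) / 2) : ℝ) *
      ((Ioo (b * L) L).indicator G ξ + (Ioo (-L) (-(b * L))).indicator G ξ) := by
    intro ξ
    have hmem : ξ / L ∈ EE b ↔ (ξ ∈ Ioo (b * L) L ∨ ξ ∈ Ioo (-L) (-(b * L))) := by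
      unfold EE
      simp only [mem_ofPred_eq]
      rw [abs_div, abs_of_pos h2j, lt_div_iff₀ h2j, div_lt_one h2j]
      constructor
      · rintro ⟨h1, h2⟩
        rcases le_total 0 ξ with h | h
        · rw [abs_of_nonneg h] at h1 h2; exact Or.inl ⟨h1, h2⟩
        · rw [abs_of_nonpos h] at h1 h2; exact Or.inr ⟨by linarith, by linarith⟩
      · have hbL : 0 < b * L := by positivity
        rintro (⟨h1, h2⟩ | ⟨h1, h2⟩)
        · rw [abs_of_pos (by linarith)]; exact ⟨h1, h2⟩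
        · rw [abs_of_neg (by linarith)]; exact ⟨by linarith, by linarith⟩
    have hdisj : ¬ (ξ ∈ Ioo (b * L) L ∧ ξ ∈ Ioo (-L) (-(b * L))) := by
      have hbL : 0 < b * L := by positivity
      rintro ⟨h1, h2⟩
      linarith [h1.1, h2.2]
    have hconj : (starRingEnd ℂ) (hc b j k ξ) = ((2 : ℝ) ^ (-(j : ℝ) / 2) : ℝ) *
        cexp (((2 * Real.pi * (k * ξ / L) : ℝ) : ℂ) * I) *
        (EE b).indicator (fun _ => (1 : ℂ)) (ξ / L) := by
      unfold hc
      rw [← hL, map_mul, map_mul, Complex.conj_ofReal, ← Complex.exp_conj, map_mul,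
        Complex.conj_ofReal, Complex.conj_I]
      congr 2
      · congr 1
        push_cast; ring_nf
      · by_cases h : ξ / L ∈ EE b
        · rw [indicator_of_mem h, map_one]
        · rw [indicator_of_notMem h, map_zero]
    rw [hconj]
    by_cases h : ξ / L ∈ EE b
    · rw [indicator_of_mem h]
      rcases hmem.mp h with h1 | h1
      · rw [indicator_of_mem h1, indicator_of_notMem (fun h2 => hdisj ⟨h1, h2⟩)]
        simp only [hG]; ring
      · rw [indicator_of_mem h1, indicator_of_notMem (fun h2 => hdisj ⟨h2, h1⟩)]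
        simp only [hG]; ring
    · rw [indicator_of_notMem h]
      have h' := fun h2 => h (hmem.mpr h2)
      rw [indicator_of_notMem (fun h2 => h' (Or.inl h2)), indicator_of_notMem (fun h2 => h' (Or.inr h2))]
      ring
  have e2 : ∫ ξ in Ioo 0 L, cexp (((2 * Real.pi * (k * ξ / L) : ℝ) : ℂ) * I) * uu b F j ξ =
      ∫ ξ, ((Ioo (b * L) L).indicator G ξ + (Ioo 0 ((1 - b) * L)).indicator (fun ξ => G (ξ - L)) ξ) := by
    rw [← integral_indicator measurableSet_Ioo]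
    refine integral_congr_ae (Eventually.of_forall fun ξ => ?_)
    simp only
    have m1 : ξ ∈ Ioo (b * L) L ↔ (ξ ∈ Ioo 0 L ∧ ξ ∈ Ioi (b * L)) := by
      have hbL : 0 < b * L := by positivity
      constructor
      · rintro ⟨h1, h2⟩; exact ⟨⟨by linarith, h2⟩, h1⟩
      · rintro ⟨⟨_, h2⟩, h3⟩; exact ⟨h3, h2⟩
    have m2 : ξ ∈ Ioo 0 ((1 - b) * L) ↔ (ξ ∈ Ioo 0 L ∧ ξ ∈ Iio ((1 - b) * L)) := by
      have hbL : (1 - b) * L < L := by nlinarith
      constructor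
      · rintro ⟨h1, h2⟩; exact ⟨⟨h1, by linarith⟩, h2⟩
      · rintro ⟨⟨h1, _⟩, h3⟩; exact ⟨h1, h3⟩
    simp only [indicator_apply, m1, m2, uu, ← hL, hG, hper]
    by_cases h0 : ξ ∈ Ioo 0 L
    · by_cases h1 : ξ ∈ Ioi (b * L) <;> by_cases h2 : ξ ∈ Iio ((1 - b) * L) <;>
        simp [h0, h1, h2] <;> ring
    · simp [h0]
  rw [e2, integral_add i1 i3, integral_congr_ae (Eventually.of_forall e1), integral_const_mul,
    integral_add i1 i2]
  congr 2
  rw [← integral_sub_right_eq_self _ L]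
  refine integral_congr_ae (Eventually.of_forall fun ξ => ?_)
  simp only [indicator_apply]
  have : ξ - L ∈ Ioo (-L) (-(b * L)) ↔ ξ ∈ Ioo 0 ((1 - b) * L) := by
    constructor
    · rintro ⟨h1, h2⟩; exact ⟨by linarith, by linarith⟩
    · rintro ⟨h1, h2⟩; exact ⟨by linarith, by linarith⟩
  simp only [this]

/-- Parseval on one period -/
theorem parseval (b : ℝ) (hb0 : 0 < b) (hb1 : b < 1) {F : ℝ → ℂ} (hF : MemLp F 2) (j : ℤ) :
    HasSum (fun k : ℤ => ‖∫ ξ, F ξ * (starRingEnd ℂ) (hc b j k ξ)‖ ^ 2)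
      (∫ ξ in Ioo 0 ((2 : ℝ) ^ j), ‖uu b F j ξ‖ ^ 2) := by
  have h2j : (0 : ℝ) < (2 : ℝ) ^ j := by positivity
  have h := hasSum_sq_fourierCoeffOn h2j ((uu_L2 b hF j).restrict (Ioc 0 ((2 : ℝ) ^ j)))
  have h' := (h.mul_left ((2 : ℝ) ^ j))
  rw [sub_zero, smul_eq_mul, ← mul_assoc, mul_inv_cancel₀ h2j.ne', one_mul,
    intervalIntegral.integral_of_le h2j.le, integral_Ioc_eq_integral_Ioo] at h'
  rw [← (Equiv.neg ℤ).hasSum_iff] at h'
  suffices hk : (fun k : ℤ => ‖∫ ξ, F ξ * (starRingEnd ℂ) (hc b j k ξ)‖ ^ 2) =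
      (fun i => (2 : ℝ) ^ j * ‖fourierCoeffOn h2j (uu b F j) i‖ ^ 2) ∘ ⇑(Equiv.neg ℤ) by
    rw [hk]; exact h'
  funext k
  simp only [Function.comp, Equiv.neg_apply]
  rw [fold b hb0 hb1 hF j k, fourierCoeffOn_eq_integral, sub_zero,
    intervalIntegral.integral_of_le h2j.le, integral_Ioc_eq_integral_Ioo, neg_neg]
  have e : ∫ x in Ioo 0 ((2 : ℝ) ^ j), (fourier k (x : AddCircle ((2 : ℝ) ^ j)) : ℂ) • uu b F j x =
      ∫ ξ in Ioo 0 ((2 : ℝ) ^ j), cexp (((2 * Real.pi * (k * ξ / 2 ^ j) : ℝ) : ℂ) * I) * uu b F j ξ := by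
    refine integral_congr_ae (Eventually.of_forall fun x => ?_)
    simp only [smul_eq_mul]
    rw [fourier_coe_apply]
    congr 2
    push_cast
    ring
  rw [e, norm_mul, norm_smul, mul_pow, mul_pow, Complex.norm_real,
    Real.norm_of_nonneg (by positivity : (0 : ℝ) ≤ (2 : ℝ) ^ (-(j : ℝ) / 2)),
    Real.norm_of_nonneg (by positivity : (0 : ℝ) ≤ 1 / (2 : ℝ) ^ j), ← mul_assoc]
  congr 1
  have h3 : ((2 : ℝ) ^ (-(j : ℝ) / 2)) ^ 2 = ((2 : ℝ) ^ j)⁻¹ := by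
    rw [← Real.rpow_natCast, ← Real.rpow_mul (by norm_num)]
    have : (-(j : ℝ) / 2 * ((2 : ℕ) : ℝ)) = ((-j : ℤ) : ℝ) := by push_cast; ring
    rw [this, Real.rpow_intCast, zpow_neg]
  rw [h3]
  field_simp

end Pool.Agent.V1178.FW
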