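import Mathlib
set_option autoImplicit false

/-! # The parent operator -/

namespace Pool.Agent.V1178.FW

open MeasureTheory Filter Topology Set
open scoped ENNReal

/-- the level: `2^(lv ξ - 1) ≤ |ξ| < 2^(lv ξ)` -/
noncomputable def lv (ξ : ℝ) : ℤ := ⌊Real.logb 2 |ξ|⌋ + 1

theorem two_half (j : ℤ) : (2 : ℝ) ^ j = 2 * 2 ^ (j - 1) := by
  rw [← zpow_one_add₀ (by norm_num)]; congr 1; ring

theorem lv_bounds {ξ : ℝ} (h : ξ ≠ 0) : (2 : ℝ) ^ (lv ξ - 1) ≤ |ξ| ∧ |ξ| < 2 ^ (lv ξ) := by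
  have h0 : 0 < |ξ| := abs_pos.mpr h
  have e : ⌊Real.logb 2 |ξ|⌋ = Int.log 2 |ξ| := by
    have := Real.floor_logb_natCast (b := 2) h0.le
    simpa using this
  unfold lv
  rw [e, add_sub_cancel_right]
  have h1 := Int.zpow_log_le_self (b := 2) (by norm_num) h0
  have h2 := Int.lt_zpow_succ_log_self (b := 2) (by norm_num) |ξ|
  exact ⟨by exact_mod_cast h1, by exact_mod_cast h2⟩

theorem lv_unique {ξ : ℝ} {j : ℤ} (h1 : (2 : ℝ) ^ (j - 1) ≤ |ξ|) (h2 : |ξ| < 2 ^ j) : lv ξ = j := by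
  have h0 : ξ ≠ 0 := by
    intro h
    rw [h, abs_zero] at h1
    exact absurd h1 (not_le.mpr (by positivity))
  obtain ⟨h3, h4⟩ := lv_bounds h0
  have a1 : lv ξ - 1 < j := (zpow_lt_zpow_iff_right₀ (by norm_num : (1 : ℝ) < 2)).mp (h3.trans_lt h2)
  have a2 : j - 1 < lv ξ := (zpow_lt_zpow_iff_right₀ (by norm_num : (1 : ℝ) < 2)).mp (h1.trans_lt h4)
  omega

theorem lv_meas : Measurable lv := by
  unfold lv
  have h : Measurable fun ξ : ℝ => Real.logb 2 |ξ| := by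
    unfold Real.logb
    fun_prop
  exact (measurable_from_top (f := fun n : ℤ => n + 1)).comp h.floor

/-- the scale -/
noncomputable def sc (ξ : ℝ) : ℝ := 2 ^ (lv ξ)

theorem sc_meas : Measurable sc := (measurable_from_top (f := fun n : ℤ => (2 : ℝ) ^ n)).comp lv_meas

/-- the parent of a point -/
noncomputable def par (ξ : ℝ) : ℝ := if 0 < ξ then ξ - sc ξ else ξ + sc ξ

theorem par_meas : Measurable par := by
  unfold par
  exact Measurable.ite measurableSet_Ioi (measurable_id.sub sc_meas) (measurable_id.add sc_meas)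

/-- the parent operator -/
noncomputable def TT (b : ℝ) (F : ℝ → ℂ) (ξ : ℝ) : ℂ :=
  if |ξ| < (1 - b) * sc ξ then -F (par ξ) else 0

theorem TT_meas (b : ℝ) {F : ℝ → ℂ} (hF : Measurable F) : Measurable (TT b F) := by
  unfold TT
  refine Measurable.ite (measurableSet_lt measurable_norm ?_) (hF.comp par_meas).neg measurable_const
  exact sc_meas.const_mul _

theorem TT_sub (b : ℝ) (F G : ℝ → ℂ) : TT b (F - G) = TT b F - TT b G := by
  funext ξ
  simp only [TT, Pi.sub_apply]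
  split_ifs
  · ring
  · simp

/-- the transfer of weights -/
noncomputable def WW (b : ℝ) (w : ℝ → ℝ≥0∞) (η : ℝ) : ℝ≥0∞ :=
  ∑' j : ℤ, ((Ico (-(2 : ℝ) ^ (j - 1)) (-(b * 2 ^ j))).indicator (fun η => w (η + 2 ^ j)) η +
    (Ioc (b * 2 ^ j) ((2 : ℝ) ^ (j - 1))).indicator (fun η => w (η - 2 ^ j)) η)

theorem WW_meas (b : ℝ) {w : ℝ → ℝ≥0∞} (hw : Measurable w) : Measurable (WW b w) := by
  unfold WW
  refine Measurable.ennreal_tsum fun j => ?_
  exact ((hw.comp (measurable_add_const _)).indicator measurableSet_Ico).add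
    ((hw.comp (measurable_sub_const _)).indicator measurableSet_Ioc)

theorem transfer (b : ℝ) (hb0 : 0 < b) (F : ℝ → ℂ) (hF : Measurable F) (w : ℝ → ℝ≥0∞)
    (hw : Measurable w) :
    ∫⁻ ξ, ‖TT b F ξ‖ₑ ^ 2 * w ξ = ∫⁻ η, ‖F η‖ₑ ^ 2 * WW b w η := by
  have hp : ∀ j : ℤ, (0 : ℝ) < 2 ^ j := fun j => by positivity
  -- pieces
  set P : ℤ → ℝ → ℝ≥0∞ := fun j => (Ico ((2 : ℝ) ^ (j - 1)) ((1 - b) * 2 ^ j)).indicator
    fun ξ => ‖F (ξ - 2 ^ j)‖ₑ ^ 2 * w ξ with hP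
  set M : ℤ → ℝ → ℝ≥0∞ := fun j => (Ioc (-((1 - b) * 2 ^ j)) (-(2 : ℝ) ^ (j - 1))).indicator
    fun ξ => ‖F (ξ + 2 ^ j)‖ₑ ^ 2 * w ξ with hM
  have hPm : ∀ j, Measurable (P j) := fun j =>
    (((hF.comp (measurable_sub_const _)).enorm.pow_const 2).mul hw).indicator measurableSet_Ico
  have hMm : ∀ j, Measurable (M j) := fun j =>
    (((hF.comp (measurable_add_const _)).enorm.pow_const 2).mul hw).indicator measurableSet_Ioc
  have hPl : ∀ j ξ, ξ ≠ 0 → j ≠ lv ξ → P j ξ = 0 := by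
    intro j ξ _ hj
    refine indicator_of_notMem (fun h => hj ?_) _
    have h1 : 0 ≤ ξ := (hp _).le.trans h.1
    refine (lv_unique ?_ ?_).symm
    · rw [abs_of_nonneg h1]; exact h.1
    · rw [abs_of_nonneg h1]; have := h.2; have := hp j; nlinarith
  have hMl : ∀ j ξ, ξ ≠ 0 → j ≠ lv ξ → M j ξ = 0 := by
    intro j ξ _ hj
    refine indicator_of_notMem (fun h => hj ?_) _
    have h1 : ξ ≤ 0 := h.2.trans (by have := hp (j - 1); linarith)
    refine (lv_unique ?_ ?_).symm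
    · rw [abs_of_nonpos h1]; linarith [h.2]
    · rw [abs_of_nonpos h1]; have := h.1; have := hp j; nlinarith
  have hpt : ∀ ξ, ξ ≠ 0 → ‖TT b F ξ‖ₑ ^ 2 * w ξ = ∑' j : ℤ, (P j ξ + M j ξ) := by
    intro ξ hξ
    rw [tsum_eq_single (lv ξ) (fun j hj => by rw [hPl j ξ hξ hj, hMl j ξ hξ hj, add_zero])]
    obtain ⟨h1, h2⟩ := lv_bounds hξ
    rcases lt_or_gt_of_ne hξ with h | h
    · have e1 : P (lv ξ) ξ = 0 := indicator_of_notMem (fun h3 => by
        have := hp (lv ξ - 1); linarith [h3.1]) _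
      rw [e1, zero_add]
      rw [abs_of_neg h] at h1 h2
      simp only [hM, TT, par, abs_of_neg h, if_neg (not_lt.mpr h.le), sc]
      by_cases h4 : -ξ < (1 - b) * 2 ^ lv ξ
      · rw [if_pos h4, indicator_of_mem (show ξ ∈ Ioc _ _ from ⟨by linarith, by linarith⟩), enorm_neg]
      · rw [if_neg h4, indicator_of_notMem (fun h5 => h4 (by linarith [h5.1]))]
        simp
    · have e1 : M (lv ξ) ξ = 0 := indicator_of_notMem (fun h3 => by
        have := hp (lv ξ - 1); linarith [h3.2]) _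
      rw [e1, add_zero]
      rw [abs_of_pos h] at h1 h2
      simp only [hP, TT, par, abs_of_pos h, if_pos h, sc]
      by_cases h4 : ξ < (1 - b) * 2 ^ lv ξ
      · rw [if_pos h4, indicator_of_mem (show ξ ∈ Ico _ _ from ⟨by linarith, by linarith⟩), enorm_neg]
      · rw [if_neg h4, indicator_of_notMem (fun h5 => h4 (by linarith [h5.2]))]
        simp
  have hae : ∀ᵐ ξ : ℝ, ‖TT b F ξ‖ₑ ^ 2 * w ξ = ∑' j : ℤ, (P j ξ + M j ξ) := by
    have h0 : ∀ᵐ ξ : ℝ, ξ ≠ 0 := by rw [ae_iff]; simp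
    filter_upwards [h0] with ξ hξ using hpt ξ hξ
  rw [lintegral_congr_ae hae, lintegral_tsum (f := fun j ξ => P j ξ + M j ξ)
    (fun j => ((hPm j).add (hMm j)).aemeasurable)]
  have hterm : ∀ j : ℤ, ∫⁻ ξ, (P j ξ + M j ξ) = ∫⁻ η, ‖F η‖ₑ ^ 2 *
      ((Ico (-(2 : ℝ) ^ (j - 1)) (-(b * 2 ^ j))).indicator (fun η => w (η + 2 ^ j)) η +
    (Ioc (b * 2 ^ j) ((2 : ℝ) ^ (j - 1))).indicator (fun η => w (η - 2 ^ j)) η) := by
    intro j
    have e2 := two_half j
    rw [lintegral_add_left (hPm j)]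
    simp_rw [mul_add]
    have hm1 : Measurable fun η => ‖F η‖ₑ ^ 2 *
        (Ico (-(2 : ℝ) ^ (j - 1)) (-(b * 2 ^ j))).indicator (fun η => w (η + 2 ^ j)) η :=
      (hF.enorm.pow_const 2).mul ((hw.comp (measurable_add_const _)).indicator measurableSet_Ico)
    rw [lintegral_add_left hm1]
    congr 1
    · rw [← lintegral_add_right_eq_self (P j) ((2 : ℝ) ^ j)]
      refine lintegral_congr fun η => ?_
      simp only [hP, indicator_apply, add_sub_cancel_right]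
      have : η + 2 ^ j ∈ Ico ((2 : ℝ) ^ (j - 1)) ((1 - b) * 2 ^ j) ↔
          η ∈ Ico (-(2 : ℝ) ^ (j - 1)) (-(b * 2 ^ j)) := by
        constructor
        · rintro ⟨h1, h2⟩; exact ⟨by linarith, by linarith⟩
        · rintro ⟨h1, h2⟩; exact ⟨by linarith, by linarith⟩
      simp only [this]
      split_ifs <;> simp
    · rw [← lintegral_sub_right_eq_self (M j) ((2 : ℝ) ^ j)]
      refine lintegral_congr fun η => ?_
      simp only [hM, indicator_apply, sub_add_cancel]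
      have : η - 2 ^ j ∈ Ioc (-((1 - b) * 2 ^ j)) (-(2 : ℝ) ^ (j - 1)) ↔
          η ∈ Ioc (b * 2 ^ j) ((2 : ℝ) ^ (j - 1)) := by
        constructor
        · rintro ⟨h1, h2⟩; exact ⟨by linarith, by linarith⟩
        · rintro ⟨h1, h2⟩; exact ⟨by linarith, by linarith⟩
      simp only [this]
      split_ifs <;> simp
  rw [tsum_congr hterm, ← lintegral_tsum]
  · refine lintegral_congr fun η => ?_
    rw [ENNReal.tsum_mul_left]
    rfl
  · intro j
    exact ((hF.enorm.pow_const 2).mul (((hw.comp (measurable_add_const _)).indicator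
      measurableSet_Ico).add ((hw.comp (measurable_sub_const _)).indicator
        measurableSet_Ioc))).aemeasurable

/-- the transfer of even weights -/
theorem WW_even (b : ℝ) (hb0 : 0 < b) (w : ℝ → ℝ≥0∞) (hw : ∀ x, w (-x) = w x) (η : ℝ) :
    WW b w η = ∑' j : ℤ, if b * 2 ^ j < |η| ∧ |η| ≤ 2 ^ (j - 1) then w (2 ^ j - |η|) else 0 := by
  unfold WW
  refine tsum_congr fun j => ?_
  have hp : (0 : ℝ) < b * 2 ^ j := by positivity
  rw [indicator_apply, indicator_apply]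
  rcases le_total 0 η with h | h
  · have h1 : η ∉ Ico (-(2 : ℝ) ^ (j - 1)) (-(b * 2 ^ j)) := fun h2 => by linarith [h2.2]
    rw [if_neg h1, zero_add, abs_of_nonneg h]
    have : (η ∈ Ioc (b * 2 ^ j) ((2 : ℝ) ^ (j - 1))) ↔ (b * 2 ^ j < η ∧ η ≤ 2 ^ (j - 1)) := Iff.rfl
    simp only [this]
    rw [← hw (η - 2 ^ j), neg_sub]
  · have h1 : η ∉ Ioc (b * 2 ^ j) ((2 : ℝ) ^ (j - 1)) := fun h2 => by linarith [h2.1]
    rw [if_neg h1, add_zero, abs_of_nonpos h]
    have : (η ∈ Ico (-(2 : ℝ) ^ (j - 1)) (-(b * 2 ^ j))) ↔ (b * 2 ^ j < -η ∧ -η ≤ 2 ^ (j - 1)) := by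
      constructor
      · rintro ⟨h1, h2⟩; exact ⟨by linarith, by linarith⟩
      · rintro ⟨h1, h2⟩; exact ⟨by linarith, by linarith⟩
    simp only [this]
    rw [show (2 : ℝ) ^ j - -η = η + 2 ^ j by ring]

/-- number of children -/
noncomputable def nn (b : ℝ) (η : ℝ) : ℝ≥0∞ := WW b (fun _ => 1) η

theorem nn_eq (b : ℝ) (hb0 : 0 < b) (η : ℝ) :
    nn b η = ∑' j : ℤ, if b * 2 ^ j < |η| ∧ |η| ≤ 2 ^ (j - 1) then 1 else 0 :=
  WW_even b hb0 _ (fun _ => rfl) η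

theorem nn_even (b : ℝ) (hb0 : 0 < b) (η : ℝ) : nn b (-η) = nn b η := by
  rw [nn_eq b hb0, nn_eq b hb0, abs_neg]

theorem exists_m {η : ℝ} (h : η ≠ 0) : ∃ m : ℤ, (2 : ℝ) ^ (m - 1) < |η| ∧ |η| ≤ 2 ^ m := by
  obtain ⟨n, hn⟩ := exists_mem_Ioc_zpow (abs_pos.mpr h) (by norm_num : (1 : ℝ) < 2)
  exact ⟨n + 1, by rw [add_sub_cancel_right]; exact hn.1, hn.2⟩

theorem nn_le (b : ℝ) (hb : 1 / 8 < b) (η : ℝ) : nn b η ≤ 2 := by
  have hb0 : 0 < b := by linarith
  rw [nn_eq b hb0]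
  by_cases h : η = 0
  · have : ∀ j : ℤ, (if b * 2 ^ j < |η| ∧ |η| ≤ 2 ^ (j - 1) then (1 : ℝ≥0∞) else 0) = 0 := by
      intro j
      rw [if_neg]
      rintro ⟨h1, _⟩
      rw [h, abs_zero] at h1
      have : (0 : ℝ) < b * 2 ^ j := by positivity
      linarith
    simp [this]
  · obtain ⟨m, h1, h2⟩ := exists_m h
    rw [tsum_eq_sum (s := {m + 1, m + 2})]
    · rw [Finset.sum_pair (by omega)]
      refine (add_le_add (b := 1) (d := 1) ?_ ?_).trans (by norm_num)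
      · split_ifs <;> simp
      · split_ifs <;> simp
    · intro j hj
      rw [if_neg]
      rintro ⟨h3, h4⟩
      simp only [Finset.mem_insert, Finset.mem_singleton, not_or] at hj
      have a1 : m - 1 < j - 1 :=
        (zpow_lt_zpow_iff_right₀ (by norm_num : (1 : ℝ) < 2)).mp (h1.trans_le h4)
      have h5 : (2 : ℝ) ^ (j - 3) < 2 ^ m := by
        have e : (2 : ℝ) ^ j = 8 * 2 ^ (j - 3) := by
          rw [show j = (j - 3) + 3 by ring, zpow_add₀ (by norm_num)]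
          norm_num; ring
        have : (0 : ℝ) < 2 ^ (j - 3) := by positivity
        rw [e] at h3
        nlinarith
      have a2 : j - 3 < m := (zpow_lt_zpow_iff_right₀ (by norm_num : (1 : ℝ) < 2)).mp h5
      omega

theorem pow_shift (m : ℤ) (k : ℕ) : (2 : ℝ) ^ (m + k) = 2 ^ k * 2 ^ m := by
  rw [zpow_add₀ (by norm_num), zpow_natCast, mul_comm]

theorem nn_ge_one (b : ℝ) (hb0 : 0 < b) (hb : b ≤ 1 / 6) {η : ℝ} (h : η ≠ 0) : 1 ≤ nn b η := by
  rw [nn_eq b hb0]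
  obtain ⟨m, h1, h2⟩ := exists_m h
  refine le_trans ?_ (ENNReal.le_tsum (m + 1))
  rw [if_pos]
  refine ⟨?_, by rw [add_sub_cancel_right]; exact h2⟩
  have e1 := pow_shift m 1
  have e2 := two_half m
  push_cast at e1
  have : (0 : ℝ) < 2 ^ (m - 1) := by positivity
  rw [e1, e2]
  nlinarith

theorem nn_ge_two (b : ℝ) (hb0 : 0 < b) (hb : b ≤ 1 / 6) {η : ℝ} (m : ℤ)
    (h1 : (2 : ℝ) ^ (m - 1) < |η|) (h2 : |η| ≤ 2 ^ m) (h3 : b * 2 ^ (m + 2) < |η|) : 2 ≤ nn b η := by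
  rw [nn_eq b hb0]
  refine le_trans ?_ (ENNReal.sum_le_tsum {m + 1, m + 2})
  rw [Finset.sum_pair (by omega), if_pos, if_pos]
  · norm_num
  · refine ⟨h3, ?_⟩
    have e1 := pow_shift m 1
    push_cast at e1
    rw [show m + 2 - 1 = m + 1 by ring, e1]
    have : (0 : ℝ) < 2 ^ m := by positivity
    nlinarith
  · refine ⟨?_, by rw [add_sub_cancel_right]; exact h2⟩
    have e1 := pow_shift m 1
    have e2 := two_half m
    push_cast at e1
    have : (0 : ℝ) < 2 ^ (m - 1) := by positivity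
    rw [e1, e2]
    nlinarith

/-- at least two grandchildren -/
theorem grand (b : ℝ) (hb0 : 0 < b) (hb : b ≤ 1 / 6) {η : ℝ} (h0 : η ≠ 0)
    (hne : ∀ i : ℤ, |η| ≠ b * 2 ^ i) : 2 ≤ WW b (nn b) η := by
  rw [WW_even b hb0 _ (nn_even b hb0)]
  obtain ⟨m, h1, h2⟩ := exists_m h0
  have e1 := pow_shift m 1
  have e2 := two_half m
  have e3 := pow_shift m 2
  have e4 := pow_shift m 3
  push_cast at e1 e3 e4
  have hpm : (0 : ℝ) < 2 ^ (m - 1) := by positivity
  have hc1 : b * 2 ^ (m + 1) < |η| ∧ |η| ≤ 2 ^ (m + 1 - 1) := by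
    refine ⟨?_, by rw [add_sub_cancel_right]; exact h2⟩
    rw [e1, e2]
    nlinarith
  by_cases h3 : b * 2 ^ (m + 2) < |η|
  · refine le_trans ?_ (ENNReal.sum_le_tsum {m + 1, m + 2})
    rw [Finset.sum_pair (by omega), if_pos hc1, if_pos]
    · have a1 : 1 ≤ nn b (2 ^ (m + 1) - |η|) := by
        refine nn_ge_one b hb0 hb ?_
        rw [e1]
        intro h
        nlinarith
      have a2 : 1 ≤ nn b (2 ^ (m + 2) - |η|) := by
        refine nn_ge_one b hb0 hb ?_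
        rw [e3]
        intro h
        nlinarith
      calc (2 : ℝ≥0∞) = 1 + 1 := by norm_num
        _ ≤ _ := add_le_add a1 a2
    · refine ⟨h3, ?_⟩
      rw [show m + 2 - 1 = m + 1 by ring, e1]
      nlinarith
  · refine le_trans ?_ (ENNReal.le_tsum (m + 1))
    rw [if_pos hc1]
    have h4 : |η| < b * 2 ^ (m + 2) := lt_of_le_of_ne (not_lt.mp h3) (hne (m + 2))
    rw [e3] at h4
    have hc0 : 0 < 2 ^ (m + 1) - |η| := by rw [e1]; nlinarith
    refine nn_ge_two b hb0 hb (m + 1) ?_ ?_ ?_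
    · rw [add_sub_cancel_right, abs_of_pos hc0, e1]
      nlinarith
    · rw [abs_of_pos hc0]
      have := abs_nonneg η
      linarith
    · rw [abs_of_pos hc0, show m + 1 + 2 = m + 3 by ring, e4, e1]
      nlinarith

end Pool.Agent.V1178.FW
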