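import Mathlib
import Pool.Agent.V1178.FW.Tree
set_option autoImplicit false

/-! # The lower bound -/

namespace Pool.Agent.V1178.FW

open MeasureTheory Filter Topology Set
open scoped ENNReal

theorem sq_eLp (F : ℝ → ℂ) : eLpNorm F 2 volume ^ 2 = ∫⁻ ξ, ‖F ξ‖ₑ ^ 2 := by
  have b1 := eLpNorm_nnreal_pow_eq_lintegral (f := F) (μ := (volume : Measure ℝ)) (p := 2) (by norm_num)
  have c1 : (((2 : NNReal) : ℝ≥0∞)) = 2 := by norm_num
  rw [c1] at b1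
  simp only [NNReal.coe_ofNat, ENNReal.rpow_ofNat] at b1
  exact b1

theorem TT_upper (b : ℝ) (hb : 1 / 8 < b) (F : ℝ → ℂ) (hF : Measurable F) :
    ∫⁻ ξ, ‖TT b F ξ‖ₑ ^ 2 ≤ 2 * ∫⁻ ξ, ‖F ξ‖ₑ ^ 2 := by
  have h := transfer b (by linarith) F hF (fun _ => 1) measurable_const
  simp only [mul_one] at h
  rw [h, ← lintegral_const_mul _ (hF.enorm.pow_const 2)]
  refine lintegral_mono fun ξ => ?_
  simp only
  rw [mul_comm]
  exact mul_le_mul' (nn_le b hb ξ) le_rfl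

theorem TT_lower (b : ℝ) (hb : 1 / 8 < b) (hb2 : b ≤ 1 / 6) (F : ℝ → ℂ) (hF : Measurable F) :
    2 * ∫⁻ ξ, ‖F ξ‖ₑ ^ 2 ≤ ∫⁻ ξ, ‖TT b (TT b F) ξ‖ₑ ^ 2 := by
  have hb0 : 0 < b := by linarith
  have h1 := transfer b hb0 (TT b F) (TT_meas b hF) (fun _ => 1) measurable_const
  have h2 := transfer b hb0 F hF (nn b) (WW_meas b measurable_const)
  simp only [mul_one] at h1
  rw [h1]
  change _ ≤ ∫⁻ ξ, ‖TT b F ξ‖ₑ ^ 2 * nn b ξ
  rw [h2, ← lintegral_const_mul _ (hF.enorm.pow_const 2)]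
  refine lintegral_mono_ae ?_
  have hnull : ∀ᵐ η : ℝ, η ≠ 0 ∧ ∀ i : ℤ, |η| ≠ b * 2 ^ i := by
    have hc : Set.Countable ({0} ∪ ⋃ i : ℤ, ({b * 2 ^ i, -(b * 2 ^ i)} : Set ℝ)) := by
      refine (countable_singleton _).union (countable_iUnion fun i => ?_)
      exact (Set.toFinite _).countable
    rw [ae_iff]
    refine measure_mono_null (fun η hη => ?_) (hc.measure_zero volume)
    simp only [mem_ofPred_eq, not_and_or, not_forall, not_not] at hη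
    rcases hη with h | ⟨i, hi⟩
    · left; exact h
    · right
      rw [mem_iUnion]
      refine ⟨i, ?_⟩
      rcases abs_choice η with h | h
      · left; rw [← hi, h]
      · right
        rw [mem_singleton_iff]; linarith
  filter_upwards [hnull] with η hη
  rw [mul_comm]
  exact mul_le_mul' le_rfl (grand b hb0 hb2 hη.1 hη.2)

/-- the defect -/
noncomputable def ee (b : ℝ) (F : ℝ → ℂ) : ℝ → ℂ := F - TT b F

theorem lower (b : ℝ) (hb : 1 / 8 < b) (hb2 : b ≤ 1 / 6) (F : ℝ → ℂ) (hF : Measurable F)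
    (hF2 : MemLp F 2) :
    ENNReal.ofReal (17 - 12 * √2) * ∫⁻ ξ, ‖F ξ‖ₑ ^ 2 ≤ ∫⁻ ξ, ‖ee b F ξ‖ₑ ^ 2 := by
  have hTm := TT_meas b hF
  have hem : Measurable (ee b F) := hF.sub hTm
  have hTem := TT_meas b hem
  set a : ℝ≥0∞ := eLpNorm F 2 volume with ha
  set ε : ℝ≥0∞ := eLpNorm (ee b F) 2 volume with hε
  have hafin : a ≠ ∞ := hF2.2.ne
  have hs2 : ∀ G : ℝ → ℂ, Measurable G → eLpNorm (TT b G) 2 volume ^ 2 ≤
      2 * eLpNorm G 2 volume ^ 2 := by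
    intro G hG
    rw [sq_eLp, sq_eLp]; exact TT_upper b hb G hG
  have hTfin : eLpNorm (TT b F) 2 volume ≠ ∞ := by
    intro h
    have := hs2 F hF
    rw [h] at this
    have h3 : 2 * a ^ 2 ≠ ∞ := ENNReal.mul_ne_top (by norm_num) (ENNReal.pow_ne_top hafin)
    exact h3 (top_le_iff.mp (by simpa using this))
  have hεfin : ε ≠ ∞ :=
    ((eLpNorm_sub_le hF.aestronglyMeasurable hTm.aestronglyMeasurable one_le_two).trans_lt
      (ENNReal.add_lt_top.mpr ⟨hafin.lt_top, hTfin.lt_top⟩)).ne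
  set τ : ℝ≥0∞ := eLpNorm (TT b (ee b F)) 2 volume with hτ
  have hτ2 : τ ^ 2 ≤ 2 * ε ^ 2 := hs2 _ hem
  have hτfin : τ ≠ ∞ := by
    intro h
    rw [h] at hτ2
    have h3 : 2 * ε ^ 2 ≠ ∞ := ENNReal.mul_ne_top (by norm_num) (ENNReal.pow_ne_top hεfin)
    exact h3 (top_le_iff.mp (by simpa using hτ2))
  -- `T² F = F - e - T e`
  have hid : TT b (TT b F) = F - ee b F - TT b (ee b F) := by
    have h1 : TT b F = F - ee b F := by unfold ee; abel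
    calc TT b (TT b F) = TT b (F - ee b F) := by rw [← h1]
      _ = TT b F - TT b (ee b F) := TT_sub b _ _
      _ = F - ee b F - TT b (ee b F) := by rw [← h1]
  have hle : eLpNorm (TT b (TT b F)) 2 volume ≤ a + ε + τ := by
    rw [hid]
    refine (eLpNorm_sub_le (hF.sub hem).aestronglyMeasurable hTem.aestronglyMeasurable
      one_le_two).trans ?_
    exact add_le_add (eLpNorm_sub_le hF.aestronglyMeasurable hem.aestronglyMeasurable
      one_le_two) le_rfl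
  have hlow : 2 * a ^ 2 ≤ (a + ε + τ) ^ 2 := by
    have h1 := TT_lower b hb hb2 F hF
    rw [← sq_eLp, ← sq_eLp] at h1
    exact h1.trans (pow_le_pow_left₀ (by simp) hle 2)
  -- to real numbers
  set A := a.toReal
  set E := ε.toReal
  set X := τ.toReal
  have hA0 : 0 ≤ A := ENNReal.toReal_nonneg
  have hE0 : 0 ≤ E := ENNReal.toReal_nonneg
  have hX0 : 0 ≤ X := ENNReal.toReal_nonneg
  have r1 : 2 * A ^ 2 ≤ (A + E + X) ^ 2 := by
    have h1 := ENNReal.toReal_mono (by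
      exact ENNReal.pow_ne_top (ENNReal.add_ne_top.mpr ⟨ENNReal.add_ne_top.mpr ⟨hafin, hεfin⟩, hτfin⟩)) hlow
    rw [ENNReal.toReal_mul, ENNReal.toReal_pow, ENNReal.toReal_pow,
      ENNReal.toReal_add (ENNReal.add_ne_top.mpr ⟨hafin, hεfin⟩) hτfin,
      ENNReal.toReal_add hafin hεfin] at h1
    simpa using h1
  have r2 : X ^ 2 ≤ 2 * E ^ 2 := by
    have h1 := ENNReal.toReal_mono
      (ENNReal.mul_ne_top (by norm_num) (ENNReal.pow_ne_top hεfin)) hτ2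
    rw [ENNReal.toReal_mul, ENNReal.toReal_pow, ENNReal.toReal_pow] at h1
    simpa using h1
  have s2 : √2 ^ 2 = 2 := Real.sq_sqrt (by norm_num)
  have s0 : 0 ≤ √2 := Real.sqrt_nonneg 2
  have s1 : 1 < √2 := by
    rw [Real.lt_sqrt (by norm_num)]; norm_num
  have r3 : √2 * A ≤ A + E + X := by
    refine abs_le_of_sq_le_sq' ?_ (by positivity) |>.2
    rw [mul_pow, s2]; exact r1
  have r4 : X ≤ √2 * E := by
    refine abs_le_of_sq_le_sq' ?_ (by positivity) |>.2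
    rw [mul_pow, s2]; exact r2
  have r5 : (√2 - 1) * A ≤ (√2 + 1) * E := by nlinarith
  have r6 : (√2 - 1) ^ 2 * A ≤ E := by
    have : (√2 - 1) * ((√2 - 1) * A) ≤ (√2 - 1) * ((√2 + 1) * E) :=
      mul_le_mul_of_nonneg_left r5 (by linarith)
    have e1 : (√2 - 1) * ((√2 + 1) * E) = E := by
      have : (√2 - 1) * (√2 + 1) = 1 := by nlinarith
      rw [← mul_assoc, this, one_mul]
    nlinarith
  have r7 : (17 - 12 * √2) * A ^ 2 ≤ E ^ 2 := by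
    have h0 : 0 ≤ (√2 - 1) ^ 2 * A := by positivity
    have h1 := pow_le_pow_left₀ h0 r6 2
    have e1 : ((√2 - 1) ^ 2 * A) ^ 2 = (17 - 12 * √2) * A ^ 2 := by
      have : (√2 - 1) ^ 2 = 3 - 2 * √2 := by nlinarith
      rw [this, mul_pow]
      have : (3 - 2 * √2) ^ 2 = 17 - 12 * √2 := by nlinarith
      rw [this]
    rw [e1] at h1
    exact h1
  have hc0 : 0 ≤ 17 - 12 * √2 := by
    have : (3 - 2 * √2) ^ 2 = 17 - 12 * √2 := by nlinarith
    rw [← this]; positivity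
  rw [← sq_eLp, ← sq_eLp, ← ha, ← hε]
  rw [← ENNReal.ofReal_toReal hafin, ← ENNReal.ofReal_toReal hεfin, ← ENNReal.ofReal_pow hA0,
    ← ENNReal.ofReal_pow hE0, ← ENNReal.ofReal_mul hc0]
  exact ENNReal.ofReal_le_ofReal r7

theorem upper (b : ℝ) (hb : 1 / 8 < b) (F : ℝ → ℂ) (hF : Measurable F) :
    ∫⁻ ξ, ‖ee b F ξ‖ₑ ^ 2 ≤ 6 * ∫⁻ ξ, ‖F ξ‖ₑ ^ 2 := by
  have h1 : ∀ ξ, ‖ee b F ξ‖ₑ ^ 2 ≤ 2 * ‖F ξ‖ₑ ^ 2 + 2 * ‖TT b F ξ‖ₑ ^ 2 := by
    intro ξ
    have h2 : ‖ee b F ξ‖ₑ ≤ ‖F ξ‖ₑ + ‖TT b F ξ‖ₑ := enorm_sub_le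
    have h3 : ‖ee b F ξ‖ₑ ^ 2 ≤ (‖F ξ‖ₑ + ‖TT b F ξ‖ₑ) ^ 2 := pow_le_pow_left₀ (by simp) h2 2
    refine h3.trans ?_
    have h4 : (‖F ξ‖ₑ + ‖TT b F ξ‖ₑ) ^ 2 ≤ 2 * (‖F ξ‖ₑ ^ 2 + ‖TT b F ξ‖ₑ ^ 2) := by
      have e1 : ‖F ξ‖ₑ = ENNReal.ofReal ‖F ξ‖ := (ofReal_norm _).symm
      have e2 : ‖TT b F ξ‖ₑ = ENNReal.ofReal ‖TT b F ξ‖ := (ofReal_norm _).symm
      rw [e1, e2, ← ENNReal.ofReal_add (norm_nonneg _) (norm_nonneg _),
        ← ENNReal.ofReal_pow (by positivity), ← ENNReal.ofReal_pow (norm_nonneg _),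
        ← ENNReal.ofReal_pow (norm_nonneg _), ← ENNReal.ofReal_add (by positivity) (by positivity),
        show (2 : ℝ≥0∞) = ENNReal.ofReal 2 by norm_num, ← ENNReal.ofReal_mul (by norm_num)]
      exact ENNReal.ofReal_le_ofReal (by nlinarith [sq_nonneg (‖F ξ‖ - ‖TT b F ξ‖)])
    rw [mul_add] at h4
    exact h4
  refine (lintegral_mono h1).trans ?_
  rw [lintegral_add_left ((hF.enorm.pow_const 2).const_mul 2),
    lintegral_const_mul _ (hF.enorm.pow_const 2),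
    lintegral_const_mul _ ((TT_meas b hF).enorm.pow_const 2)]
  have h2 := TT_upper b hb F hF
  refine (add_le_add le_rfl (mul_le_mul' le_rfl h2)).trans (le_of_eq ?_)
  ring

end Pool.Agent.V1178.FW
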