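import Mathlib
import Pool.Agent.V1178.FW.Est
import Pool.Agent.V1178.FW.Coef
set_option autoImplicit false

/-! # The frame inequalities -/

namespace Pool.Agent.V1178.FW

open MeasureTheory Filter Topology Set FourierTransform
open scoped ENNReal

/-- one shell -/
theorem shell (b : ℝ) (hb : 1 / 8 < b) (hb2 : b ≤ 1 / 6) (F : ℝ → ℂ) (hF : Measurable F) (j : ℤ) :
    ∫⁻ ξ in Ioo 0 ((2 : ℝ) ^ j), ‖uu b F j ξ‖ₑ ^ 2 =
      ∫⁻ ξ, ((Ioo ((2 : ℝ) ^ (j - 1)) (2 ^ j)).indicator (fun ξ => ‖ee b F ξ‖ₑ ^ 2) ξ +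
        (Ioo (-(2 : ℝ) ^ j) (-2 ^ (j - 1))).indicator (fun ξ => ‖ee b F ξ‖ₑ ^ 2) ξ) := by
  have hp : (0 : ℝ) < 2 ^ (j - 1) := by positivity
  have e2 := two_half j
  have hem : Measurable fun ξ => ‖ee b F ξ‖ₑ ^ 2 := (hF.sub (TT_meas b hF)).enorm.pow_const 2
  have hum : Measurable fun ξ => ‖uu b F j ξ‖ₑ ^ 2 := (uu_meas b hF j).enorm.pow_const 2
  have h1 : ∫⁻ ξ in Ioo 0 ((2 : ℝ) ^ j), ‖uu b F j ξ‖ₑ ^ 2 =
      ∫⁻ ξ, ((Ioo ((2 : ℝ) ^ (j - 1)) (2 ^ j)).indicator (fun ξ => ‖uu b F j ξ‖ₑ ^ 2) ξ +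
        (Ioo 0 ((2 : ℝ) ^ (j - 1))).indicator (fun ξ => ‖uu b F j ξ‖ₑ ^ 2) ξ) := by
    rw [← lintegral_indicator measurableSet_Ioo]
    refine lintegral_congr_ae ?_
    have h0 : ∀ᵐ ξ : ℝ, ξ ≠ 2 ^ (j - 1) := by rw [ae_iff]; simp
    filter_upwards [h0] with ξ hξ
    simp only [indicator_apply, mem_Ioo]
    rcases lt_or_gt_of_ne hξ with h | h
    · have a1 : ¬ ((2 : ℝ) ^ (j - 1) < ξ ∧ ξ < 2 ^ j) := fun h2 => absurd h2.1 (not_lt.mpr h.le)
      rw [if_neg a1, zero_add]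
      by_cases h3 : 0 < ξ
      · rw [if_pos ⟨h3, by linarith⟩, if_pos ⟨h3, h⟩]
      · rw [if_neg (fun h4 => h3 h4.1), if_neg (fun h4 => h3 h4.1)]
    · have a1 : ¬ (0 < ξ ∧ ξ < (2 : ℝ) ^ (j - 1)) := fun h2 => absurd h2.2 (not_lt.mpr h.le)
      rw [if_neg a1, add_zero]
      by_cases h3 : ξ < 2 ^ j
      · rw [if_pos ⟨by linarith, h3⟩, if_pos ⟨h, h3⟩]
      · rw [if_neg (fun h4 => h3 h4.2), if_neg (fun h4 => h3 h4.2)]
  rw [h1, lintegral_add_left (hum.indicator measurableSet_Ioo),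
    lintegral_add_left (hem.indicator measurableSet_Ioo)]
  congr 1
  · refine lintegral_congr fun ξ => ?_
    by_cases h : ξ ∈ Ioo ((2 : ℝ) ^ (j - 1)) (2 ^ j)
    · rw [indicator_of_mem h, indicator_of_mem h]
      have h0 : 0 < ξ := hp.trans h.1
      have hl : lv ξ = j := lv_unique (by rw [abs_of_pos h0]; exact h.1.le) (by rw [abs_of_pos h0]; exact h.2)
      have hs : sc ξ = 2 ^ j := by unfold sc; rw [hl]
      have a1 : ξ ∈ Ioi (b * 2 ^ j) := by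
        rw [mem_Ioi, e2]; nlinarith [h.1]
      congr 2
      unfold uu ee
      rw [indicator_of_mem a1, Pi.sub_apply]
      unfold TT par
      rw [hs, abs_of_pos h0, if_pos h0]
      by_cases h3 : ξ < (1 - b) * 2 ^ j
      · rw [if_pos h3, indicator_of_mem (show ξ ∈ Iio _ from h3), sub_neg_eq_add]
      · rw [if_neg h3, indicator_of_notMem (show ξ ∉ Iio _ from h3), sub_zero, add_zero]
    · rw [indicator_of_notMem h, indicator_of_notMem h]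
  · rw [← lintegral_sub_right_eq_self
      (fun ξ => (Ioo (-(2 : ℝ) ^ j) (-2 ^ (j - 1))).indicator (fun ξ => ‖ee b F ξ‖ₑ ^ 2) ξ)
      ((2 : ℝ) ^ j)]
    refine lintegral_congr fun ξ => ?_
    by_cases h : ξ ∈ Ioo 0 ((2 : ℝ) ^ (j - 1))
    · have h' : ξ - 2 ^ j ∈ Ioo (-(2 : ℝ) ^ j) (-2 ^ (j - 1)) :=
        ⟨by linarith [h.1], by linarith [h.2]⟩
      rw [indicator_of_mem h, indicator_of_mem h']
      have h0 : ξ - 2 ^ j < 0 := by linarith [h'.2]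
      have hl : lv (ξ - 2 ^ j) = j := lv_unique (by rw [abs_of_neg h0]; linarith [h'.2])
        (by rw [abs_of_neg h0]; linarith [h'.1])
      have hs : sc (ξ - 2 ^ j) = 2 ^ j := by unfold sc; rw [hl]
      have a1 : ξ ∈ Iio ((1 - b) * 2 ^ j) := by
        rw [mem_Iio, e2]; nlinarith [h.2]
      congr 2
      unfold uu ee
      rw [indicator_of_mem a1, Pi.sub_apply]
      unfold TT par
      rw [hs, abs_of_neg h0, if_neg (not_lt.mpr h0.le), sub_add_cancel]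
      by_cases h3 : b * 2 ^ j < ξ
      · rw [if_pos (by linarith), indicator_of_mem (show ξ ∈ Ioi _ from h3), sub_neg_eq_add, add_comm]
      · rw [if_neg (by linarith), indicator_of_notMem (show ξ ∉ Ioi _ from h3), sub_zero, zero_add]
    · have h' : ξ - 2 ^ j ∉ Ioo (-(2 : ℝ) ^ j) (-2 ^ (j - 1)) :=
        fun h2 => h ⟨by linarith [h2.1], by linarith [h2.2]⟩
      rw [indicator_of_notMem h, indicator_of_notMem h']

/-- all shells -/
theorem shells (b : ℝ) (F : ℝ → ℂ) (hF : Measurable F) :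
    ∑' j : ℤ, ∫⁻ ξ, ((Ioo ((2 : ℝ) ^ (j - 1)) (2 ^ j)).indicator (fun ξ => ‖ee b F ξ‖ₑ ^ 2) ξ +
        (Ioo (-(2 : ℝ) ^ j) (-2 ^ (j - 1))).indicator (fun ξ => ‖ee b F ξ‖ₑ ^ 2) ξ) =
      ∫⁻ ξ, ‖ee b F ξ‖ₑ ^ 2 := by
  have hem : Measurable fun ξ => ‖ee b F ξ‖ₑ ^ 2 := (hF.sub (TT_meas b hF)).enorm.pow_const 2
  rw [← lintegral_tsum (f := fun (j : ℤ) ξ =>
    ((Ioo ((2 : ℝ) ^ (j - 1)) (2 ^ j)).indicator (fun ξ => ‖ee b F ξ‖ₑ ^ 2) ξ +
        (Ioo (-(2 : ℝ) ^ j) (-2 ^ (j - 1))).indicator (fun ξ => ‖ee b F ξ‖ₑ ^ 2) ξ))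
    (fun j => ((hem.indicator measurableSet_Ioo).add (hem.indicator measurableSet_Ioo)).aemeasurable)]
  refine lintegral_congr_ae ?_
  have hnull : ∀ᵐ ξ : ℝ, ξ ≠ 0 ∧ ∀ i : ℤ, |ξ| ≠ 2 ^ i := by
    have hc : Set.Countable ({0} ∪ ⋃ i : ℤ, ({(2 : ℝ) ^ i, -((2 : ℝ) ^ i)} : Set ℝ)) := by
      refine (countable_singleton _).union (countable_iUnion fun i => ?_)
      exact (Set.toFinite _).countable
    rw [ae_iff]
    refine measure_mono_null (fun η hη => ?_) (hc.measure_zero volume)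
    simp only [mem_ofPred_eq, not_and_or, not_forall, not_not] at hη
    rcases hη with h | ⟨i, hi⟩
    · left; exact h
    · right
      rw [mem_iUnion]
      refine ⟨i, ?_⟩
      rcases abs_choice η with h | h
      · left; rw [← hi, h]
      · right
        rw [mem_singleton_iff]; linarith
  filter_upwards [hnull] with ξ hξ
  obtain ⟨h1, h2⟩ := lv_bounds hξ.1
  have hp : ∀ j : ℤ, (0 : ℝ) < 2 ^ j := fun j => by positivity
  have h1' : (2 : ℝ) ^ (lv ξ - 1) < |ξ| := lt_of_le_of_ne h1 (hξ.2 _).symm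
  rw [tsum_eq_single (lv ξ)]
  · rcases lt_or_gt_of_ne hξ.1 with h | h
    · rw [abs_of_neg h] at h1' h2
      rw [indicator_of_notMem (fun h3 => by have := hp (lv ξ - 1); linarith [h3.1]),
        indicator_of_mem (show ξ ∈ Ioo _ _ from ⟨by linarith, by linarith⟩), zero_add]
    · rw [abs_of_pos h] at h1' h2
      rw [indicator_of_mem (show ξ ∈ Ioo _ _ from ⟨h1', h2⟩),
        indicator_of_notMem (fun h3 => by have := hp (lv ξ - 1); linarith [h3.2]), add_zero]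
  · intro j hj
    rw [indicator_of_notMem, indicator_of_notMem, add_zero]
    · intro h
      apply hj
      have h0 : ξ < 0 := by have := hp (j - 1); linarith [h.2]
      exact (lv_unique (by rw [abs_of_neg h0]; linarith [h.2]) (by rw [abs_of_neg h0]; linarith [h.1])).symm
    · intro h
      apply hj
      have h0 : 0 < ξ := by have := hp (j - 1); linarith [h.1]
      exact (lv_unique (by rw [abs_of_pos h0]; exact h.1.le) (by rw [abs_of_pos h0]; exact h.2)).symm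

/-- the sum of all coefficients, for a measurable `F` -/
theorem total (b : ℝ) (hb : 1 / 8 < b) (hb2 : b ≤ 1 / 6) (F : ℝ → ℂ) (hF : Measurable F)
    (hF2 : MemLp F 2) :
    ∑' p : ℤ × ℤ, ENNReal.ofReal (‖∫ ξ, F ξ * (starRingEnd ℂ) (hc b p.1 p.2 ξ)‖ ^ 2) =
      ∫⁻ ξ, ‖ee b F ξ‖ₑ ^ 2 := by
  rw [ENNReal.tsum_prod', ← shells b F hF]
  refine tsum_congr fun j => ?_
  rw [← shell b hb hb2 F hF j]
  have h := parseval b (by linarith) (by linarith) hF2 j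
  rw [← ENNReal.ofReal_tsum_of_nonneg (fun k => by positivity) h.summable, h.tsum_eq]
  have hu : MemLp (uu b F j) 2 (volume.restrict (Ioo 0 ((2 : ℝ) ^ j))) := (uu_L2 b hF2 j).restrict _
  rw [ofReal_integral_eq_lintegral_ofReal hu.norm.integrable_sq
    (Eventually.of_forall fun x => by positivity)]
  refine lintegral_congr fun ξ => ?_
  rw [ENNReal.ofReal_pow (norm_nonneg _), ofReal_norm]

theorem norm_sq_lint (f : L2) : ∫⁻ ξ, ‖f ξ‖ₑ ^ 2 = ENNReal.ofReal (‖f‖ ^ 2) := by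
  rw [← sq_eLp, ENNReal.ofReal_pow (norm_nonneg _)]
  congr 1
  rw [Lp.norm_def, ENNReal.ofReal_toReal (Lp.memLp f).2.ne]

/-- the frame inequalities -/
theorem frame (b : ℝ) (hb : 1 / 8 < b) (hb2 : b ≤ 1 / 6) (ψ : L2)
    (hψ : ((𝓕 ψ : L2) : ℝ → ℂ) =ᵐ[volume] (EE b).indicator fun _ => (1 : ℂ)) (f : L2) :
    Summable (fun p : ℤ × ℤ => ‖∫ x, f x * (starRingEnd ℂ) (dil ψ p.1 p.2 x)‖ ^ 2) ∧
    (17 - 12 * √2) * ‖f‖ ^ 2 ≤ ∑' p : ℤ × ℤ, ‖∫ x, f x * (starRingEnd ℂ) (dil ψ p.1 p.2 x)‖ ^ 2 ∧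
    ∑' p : ℤ × ℤ, ‖∫ x, f x * (starRingEnd ℂ) (dil ψ p.1 p.2 x)‖ ^ 2 ≤ 6 * ‖f‖ ^ 2 := by
  set F : ℝ → ℂ := ((𝓕 f : L2) : ℝ → ℂ) with hFdef
  have hFm : Measurable F := (Lp.stronglyMeasurable (𝓕 f : L2)).measurable
  have hF2 : MemLp F 2 := Lp.memLp _
  have hFn : ∫⁻ ξ, ‖F ξ‖ₑ ^ 2 = ENNReal.ofReal (‖f‖ ^ 2) := by
    rw [hFdef, norm_sq_lint, Lp.norm_fourier_eq]
  have hcc : (fun p : ℤ × ℤ => ‖∫ x, f x * (starRingEnd ℂ) (dil ψ p.1 p.2 x)‖ ^ 2) =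
      fun p => ‖∫ ξ, F ξ * (starRingEnd ℂ) (hc b p.1 p.2 ξ)‖ ^ 2 := by
    funext p
    rw [coef_eq b ψ hψ f p.1 p.2]
  rw [hcc]
  set c : ℤ × ℤ → ℝ := fun p => ‖∫ ξ, F ξ * (starRingEnd ℂ) (hc b p.1 p.2 ξ)‖ ^ 2 with hcdef
  have c0 : ∀ p, 0 ≤ c p := fun p => by rw [hcdef]; positivity
  have htot : ∑' p, ENNReal.ofReal (c p) = ∫⁻ ξ, ‖ee b F ξ‖ₑ ^ 2 := total b hb hb2 F hFm hF2
  have hlow := lower b hb hb2 F hFm hF2
  have hup := upper b hb F hFm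
  rw [← htot, hFn] at hlow hup
  have hfin : ∑' p, ENNReal.ofReal (c p) ≠ ∞ := by
    refine (hup.trans_lt ?_).ne
    exact ENNReal.mul_lt_top (by norm_num) ENNReal.ofReal_lt_top
  have hsum : Summable c := by
    have h1 := ENNReal.summable_toReal hfin
    refine h1.congr fun p => ?_
    exact ENNReal.toReal_ofReal (c0 p)
  rw [← ENNReal.ofReal_tsum_of_nonneg c0 hsum] at hlow hup
  have hs0 : 0 ≤ 17 - 12 * √2 := by
    have s2 : √2 ^ 2 = 2 := Real.sq_sqrt (by norm_num)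
    have : (3 - 2 * √2) ^ 2 = 17 - 12 * √2 := by nlinarith
    rw [← this]; positivity
  refine ⟨hsum, ?_, ?_⟩
  · rw [← ENNReal.ofReal_mul hs0] at hlow
    exact (ENNReal.ofReal_le_ofReal_iff (tsum_nonneg c0)).mp hlow
  · rw [show (6 : ℝ≥0∞) = ENNReal.ofReal 6 by norm_num, ← ENNReal.ofReal_mul (by norm_num)] at hup
    exact (ENNReal.ofReal_le_ofReal_iff (by positivity)).mp hup

end Pool.Agent.V1178.FW
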